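import Pool.Agent.R3B.StmtsU

set_option autoImplicit false

open Real Filter Topology Set

namespace Pool.Agent.R3B.H19

theorem sql_aux {α C s e0 θ : ℝ} (hα : 0 < α) (hC : 0 ≤ C) (hs2 : 1 / 2 < s) (he0 : 0 < e0)
    (hθ : 0 < θ) (_hθ1 : θ ≤ 1) :
    ∃ c : ℝ, 0 < c ∧ ∀ E ε : ℕ → ℝ, (∀ k, 0 < E k) → e0 ≤ E 0 → (∀ k, E (k + 1) ≤ E k) →
    (∀ k, θ * E k ≤ E (k + 1)) → (∀ k, 0 ≤ ε k) →
    (∀ k : ℕ, ε k ≤ C * ((k : ℝ) + 1) ^ (-(2 * s))) →
    (∀ k : ℕ, E k - E (k + 1) ≤ C * ((k : ℝ) + 1) ^ (-s) * E k) →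
    (∀ k, E (k + 1) * ((E (k + 1) - E (k + 2)) - (E k - E (k + 1)) - ε k * (E k - E (k + 2))) ≤
      -((α + 2) / 2) * (E (k + 1) - E (k + 2)) ^ 2) →
    ∀ k : ℕ, c * ((k : ℝ) + 1) ^ (-(2 / α)) ≤ E k := by
  obtain ⟨β, hβ⟩ : ∃ β : ℝ, β = (α + 2) / 2 := ⟨_, rfl⟩
  have hβ1 : 1 ≤ β := by rw [hβ]; linarith
  obtain ⟨γ, hγ⟩ : ∃ γ : ℝ, γ = α / 2 := ⟨_, rfl⟩
  have hγ0 : 0 < γ := by rw [hγ]; positivity
  have hγβ : γ + 1 = β := by rw [hγ, hβ]; ring
  obtain ⟨D, hD⟩ : ∃ D : ℝ, D = 3 * C + 2 * β ^ 2 * C ^ 2 := ⟨_, rfl⟩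
  have hD0 : 0 ≤ D := by rw [hD]; positivity
  obtain ⟨g, hg⟩ : ∃ g : ℕ → ℝ, ∀ k, g k = ((k : ℝ) + 1) ^ (-(2 * s)) := ⟨_, fun _ => rfl⟩
  have hg0 : ∀ k, 0 ≤ g k := fun k => by rw [hg]; positivity
  have hgs : Summable g := by
    have h1 : Summable fun k : ℕ => ((k : ℝ)) ^ (-(2 * s)) :=
      Real.summable_nat_rpow.2 (by linarith)
    have h2 := (summable_nat_add_iff 1).2 h1
    refine h2.congr fun k => ?_
    rw [hg]
    push_cast
    ring_nf
  -- choice of `k0`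
  obtain ⟨k0, hk0'⟩ : ∃ k0 : ℕ, ∀ k : ℕ, k0 ≤ k → (β ^ 2 * C ^ 2 + C) * g k ≤ 1 / 2 := by
    have h1 : Tendsto (fun k => (β ^ 2 * C ^ 2 + C) * g k) atTop (𝓝 ((β ^ 2 * C ^ 2 + C) * 0)) :=
      hgs.tendsto_atTop_zero.const_mul _
    rw [mul_zero] at h1
    have h2 := h1.eventually (Iic_mem_nhds (show (0 : ℝ) < 1 / 2 by norm_num))
    obtain ⟨k0, hk0⟩ := eventually_atTop.1 h2
    exact ⟨k0, fun k hk => hk0 k hk⟩
  obtain ⟨Z, hZ⟩ : ∃ Z : ℝ, Z = (θ ^ (k0 + 1) * e0) ^ (-γ) := ⟨_, rfl⟩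
  obtain ⟨Y, hY⟩ : ∃ Y : ℝ, Y = (θ ^ k0 * e0) ^ (-γ) := ⟨_, rfl⟩
  have hZ0 : 0 < Z := by rw [hZ]; positivity
  have hY0 : 0 < Y := by rw [hY]; positivity
  obtain ⟨B, hB⟩ : ∃ B : ℝ, B = (1 / θ * Z) * Real.exp (D * ∑' k, g k) := ⟨_, rfl⟩
  have hB0 : 0 ≤ B := by rw [hB]; positivity
  obtain ⟨C1, hC1⟩ : ∃ C1 : ℝ, C1 = Y + γ * B := ⟨_, rfl⟩
  have hC1pos : 0 < C1 := by
    rw [hC1]
    have : 0 ≤ γ * B := by positivity
    linarith
  refine ⟨C1 ^ (-(2 / α)), Real.rpow_pos_of_pos hC1pos _, ?_⟩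
  intro E ε hE hE0 hanti hθE hε0 hε hs hR
  have hmono : ∀ k j : ℕ, k ≤ j → E j ≤ E k := by
    intro k j hkj
    exact antitone_nat_of_succ_le hanti hkj
  have hElow : ∀ k : ℕ, θ ^ k * e0 ≤ E k := by
    intro k
    induction k with
    | zero => simpa using hE0
    | succ k ih =>
      calc θ ^ (k + 1) * e0 = θ * (θ ^ k * e0) := by ring
        _ ≤ θ * E k := mul_le_mul_of_nonneg_left ih hθ.le
        _ ≤ E (k + 1) := hθE k
  -- ratio
  set r : ℕ → ℝ := fun k => (E k - E (k + 1)) * E (k + 1) ^ (-β) with hr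
  have hr0 : ∀ k, 0 ≤ r k := fun k =>
    mul_nonneg (by linarith [hanti k]) (Real.rpow_nonneg (hE _).le _)
  have hstep : ∀ k : ℕ, (β ^ 2 * C ^ 2 + C) * g k ≤ 1 / 2 →
      r (k + 1) ≤ r k * Real.exp (D * g k) := by
    intro k hk
    have hk1 : (0 : ℝ) < (k : ℝ) + 1 := by positivity
    obtain ⟨s', hsdef⟩ : ∃ s' : ℝ, s' = (E (k + 1) - E (k + 2)) / E (k + 1) := ⟨_, rfl⟩
    have hE1 := hE (k + 1)
    have hE2 := hE (k + 2)
    have hs0 : 0 ≤ s' := by
      have h1 : 0 ≤ E (k + 1) - E (k + 2) := sub_nonneg.mpr (hanti (k + 1))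
      rw [hsdef]
      exact div_nonneg h1 hE1.le
    have hs1 : s' < 1 := by
      rw [hsdef, div_lt_one hE1]; linarith
    have hsC : s' ≤ C * ((k : ℝ) + 1) ^ (-s) := by
      have h1 := hs (k + 1)
      have h2 : s' ≤ C * (((k + 1 : ℕ) : ℝ) + 1) ^ (-s) := by
        rw [hsdef, div_le_iff₀ hE1]
        exact h1
      refine h2.trans ?_
      refine mul_le_mul_of_nonneg_left ?_ hC
      refine Real.rpow_le_rpow_of_nonpos hk1 ?_ (by linarith)
      push_cast
      linarith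
    have hsE : E (k + 2) = E (k + 1) * (1 - s') := by
      rw [hsdef]; field_simp; ring
    have hse : E (k + 1) - E (k + 2) = E (k + 1) * s' := by rw [hsE]; ring
    set f0 : ℝ := E k - E (k + 1) with hf0
    have hf0' : 0 ≤ f0 := by rw [hf0]; linarith [hanti k]
    set f1 : ℝ := E (k + 1) - E (k + 2) with hf1
    have hf1' : 0 ≤ f1 := by rw [hf1]; linarith [hanti (k + 1)]
    have hR' := hR k
    rw [← hβ] at hR'
    have hsum : E k - E (k + 2) = f0 + f1 := by rw [hf0, hf1]; ring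
    rw [hsum] at hR'
    have hR2 : f1 * (1 + β * s' - ε k) ≤ f0 * (1 + ε k) := by
      have h1 : E (k + 1) * (f1 * (1 + β * s' - ε k)) ≤ E (k + 1) * (f0 * (1 + ε k)) := by
        have h2 : f1 ^ 2 = f1 * (E (k + 1) * s') := by rw [← hse]; ring
        rw [h2] at hR'
        linarith
      exact le_of_mul_le_mul_left h1 hE1
    have hsq : s' ^ 2 ≤ C ^ 2 * g k := by
      have := pow_le_pow_left₀ hs0 hsC 2
      rw [mul_pow] at this
      have h2 : (((k : ℝ) + 1) ^ (-s)) ^ 2 = g k := by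
        rw [hg, ← Real.rpow_natCast, ← Real.rpow_mul hk1.le]
        congr 1
        push_cast
        ring
      rw [h2] at this
      exact this
    have hεg : ε k ≤ C * g k := by rw [hg]; exact hε k
    set x : ℝ := β ^ 2 * s' ^ 2 + ε k with hx
    have hx0 : 0 ≤ x := by
      have := hε0 k
      positivity
    have hxle : x ≤ 1 / 2 := by
      refine le_trans ?_ hk
      have h1 : β ^ 2 * s' ^ 2 ≤ β ^ 2 * (C ^ 2 * g k) :=
        mul_le_mul_of_nonneg_left hsq (by positivity)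
      have h2 : (β ^ 2 * C ^ 2 + C) * g k = β ^ 2 * (C ^ 2 * g k) + C * g k := by ring
      rw [hx, h2]
      exact add_le_add h1 hεg
    -- Bernoulli
    have h1s : 0 < 1 - s' := by linarith
    have hbern : 1 - β * s' ≤ (1 - s') ^ β := by
      have h1 := one_add_mul_self_le_rpow_one_add (s := -s') (p := β) (by linarith) hβ1
      have h2 : 1 + -s' = 1 - s' := by ring
      rw [h2] at h1
      linarith
    have hpos1 : 0 < (1 - s') ^ β := Real.rpow_pos_of_pos h1s _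
    have hεk := hε0 k
    have hfac : 1 - x ≤ (1 + β * s' - ε k) * (1 - s') ^ β := by
      have hb : 0 ≤ 1 + β * s' - ε k := by
        have h1 : ε k ≤ x := by
          have : 0 ≤ β ^ 2 * s' ^ 2 := by positivity
          rw [hx]; linarith
        have h2 : 0 ≤ β * s' := by positivity
        linarith
      have h1 := mul_le_mul_of_nonneg_left hbern hb
      have h2 : 1 - x ≤ (1 + β * s' - ε k) * (1 - β * s') := by
        rw [hx]
        have : 0 ≤ ε k * (β * s') := by positivity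
        have h3 : (1 + β * s' - ε k) * (1 - β * s') =
            1 - (β ^ 2 * s' ^ 2 + ε k) + ε k * (β * s') := by ring
        linarith
      linarith
    have hmain : f1 * (1 - x) ≤ f0 * (1 + ε k) * (1 - s') ^ β := by
      calc f1 * (1 - x) ≤ f1 * ((1 + β * s' - ε k) * (1 - s') ^ β) :=
            mul_le_mul_of_nonneg_left hfac hf1'
        _ = (f1 * (1 + β * s' - ε k)) * (1 - s') ^ β := by ring
        _ ≤ (f0 * (1 + ε k)) * (1 - s') ^ β := mul_le_mul_of_nonneg_right hR2 hpos1.le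
    have hE2r : E (k + 2) ^ (-β) = E (k + 1) ^ (-β) * ((1 - s') ^ β)⁻¹ := by
      rw [hsE, Real.mul_rpow hE1.le h1s.le, Real.rpow_neg h1s.le]
    have hEb : 0 < E (k + 1) ^ (-β) := Real.rpow_pos_of_pos hE1 _
    have hr1 : r (k + 1) * (1 - x) ≤ r k * (1 + ε k) := by
      have e1' : r (k + 1) = f1 * (E (k + 1) ^ (-β) * ((1 - s') ^ β)⁻¹) := by
        simp only [hr]
        rw [show k + 1 + 1 = k + 2 from rfl, hE2r]
      have e2' : r k = f0 * E (k + 1) ^ (-β) := rfl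
      rw [e1', e2']
      calc f1 * (E (k + 1) ^ (-β) * ((1 - s') ^ β)⁻¹) * (1 - x) =
            (f1 * (1 - x)) * (E (k + 1) ^ (-β) * ((1 - s') ^ β)⁻¹) := by ring
        _ ≤ (f0 * (1 + ε k) * (1 - s') ^ β) * (E (k + 1) ^ (-β) * ((1 - s') ^ β)⁻¹) :=
            mul_le_mul_of_nonneg_right hmain (by positivity)
        _ = f0 * E (k + 1) ^ (-β) * (1 + ε k) := by field_simp
    have hexp1 : 1 ≤ (1 - x) * Real.exp (2 * x) := by
      have h1 := Real.add_one_le_exp (2 * x)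
      have h2 := mul_le_mul_of_nonneg_left h1 (by linarith : 0 ≤ 1 - x)
      have h3 : 0 ≤ x * (1 - 2 * x) := mul_nonneg hx0 (by linarith)
      linarith
    have hexp2 : 1 + ε k ≤ Real.exp (ε k) := by
      have := Real.add_one_le_exp (ε k)
      linarith
    have h3 : r (k + 1) ≤ r k * Real.exp (2 * x + ε k) := by
      calc r (k + 1) = r (k + 1) * 1 := by ring
        _ ≤ r (k + 1) * ((1 - x) * Real.exp (2 * x)) :=
            mul_le_mul_of_nonneg_left hexp1 (hr0 _)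
        _ = (r (k + 1) * (1 - x)) * Real.exp (2 * x) := by ring
        _ ≤ (r k * (1 + ε k)) * Real.exp (2 * x) :=
            mul_le_mul_of_nonneg_right hr1 (Real.exp_pos _).le
        _ ≤ (r k * Real.exp (ε k)) * Real.exp (2 * x) := by
            apply mul_le_mul_of_nonneg_right _ (Real.exp_pos _).le
            exact mul_le_mul_of_nonneg_left hexp2 (hr0 _)
        _ = r k * Real.exp (2 * x + ε k) := by rw [Real.exp_add]; ring
    refine h3.trans ?_
    apply mul_le_mul_of_nonneg_left _ (hr0 _)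
    apply Real.exp_le_exp.mpr
    have h4 : D * g k = 3 * (C * g k) + 2 * β ^ 2 * (C ^ 2 * g k) := by rw [hD]; ring
    rw [h4, hx]
    have h5 := mul_le_mul_of_nonneg_left hsq (by positivity : 0 ≤ 2 * β ^ 2)
    linarith
  -- the bound at `k0`
  have hrk0 : r k0 ≤ 1 / θ * Z := by
    have hE1 := hE (k0 + 1)
    have h1 : E k0 - E (k0 + 1) ≤ 1 / θ * E (k0 + 1) := by
      have h2 : E k0 ≤ 1 / θ * E (k0 + 1) := by
        rw [one_div, ← div_eq_inv_mul, le_div_iff₀ hθ, mul_comm]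
        exact hθE k0
      linarith
    have h2 : E (k0 + 1) * E (k0 + 1) ^ (-β) = E (k0 + 1) ^ (-γ) := by
      rw [← hγβ, show -γ = 1 + -(γ + 1) by ring, Real.rpow_add hE1, Real.rpow_one]
    have h3 : E (k0 + 1) ^ (-γ) ≤ Z := by
      rw [hZ]
      exact Real.rpow_le_rpow_of_nonpos (by positivity) (hElow _) (by linarith)
    calc r k0 = (E k0 - E (k0 + 1)) * E (k0 + 1) ^ (-β) := rfl
      _ ≤ (1 / θ * E (k0 + 1)) * E (k0 + 1) ^ (-β) :=
          mul_le_mul_of_nonneg_right h1 (Real.rpow_nonneg hE1.le _)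
      _ = 1 / θ * (E (k0 + 1) * E (k0 + 1) ^ (-β)) := by ring
      _ = 1 / θ * E (k0 + 1) ^ (-γ) := by rw [h2]
      _ ≤ 1 / θ * Z := mul_le_mul_of_nonneg_left h3 (by positivity)
  have hrB1 : ∀ k : ℕ, k0 ≤ k →
      r k ≤ (1 / θ * Z) * Real.exp (D * ∑ j ∈ Finset.range k, g j) := by
    intro k hk
    induction k, hk using Nat.le_induction with
    | base =>
      refine hrk0.trans ?_
      have h1 : 0 ≤ D * ∑ j ∈ Finset.range k0, g j :=
        mul_nonneg hD0 (Finset.sum_nonneg fun j _ => hg0 j)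
      have h2 := Real.one_le_exp h1
      have h3 : 0 ≤ 1 / θ * Z := by positivity
      nlinarith
    | succ k hk ih =>
      have h1 := hstep k (hk0' k hk)
      calc r (k + 1) ≤ r k * Real.exp (D * g k) := h1
        _ ≤ ((1 / θ * Z) * Real.exp (D * ∑ j ∈ Finset.range k, g j)) * Real.exp (D * g k) :=
            mul_le_mul_of_nonneg_right ih (Real.exp_pos _).le
        _ = (1 / θ * Z) * Real.exp (D * ∑ j ∈ Finset.range (k + 1), g j) := by
            rw [Finset.sum_range_succ, mul_add D, Real.exp_add]; ring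
  have hrB' : ∀ k : ℕ, k0 ≤ k → r k ≤ B := by
    intro k hk
    refine (hrB1 k hk).trans ?_
    rw [hB]
    refine mul_le_mul_of_nonneg_left ?_ (by positivity)
    refine Real.exp_le_exp.mpr (mul_le_mul_of_nonneg_left ?_ hD0)
    exact hgs.sum_le_tsum _ fun j _ => hg0 j
  have hEY : E k0 ^ (-γ) ≤ Y := by
    rw [hY]
    exact Real.rpow_le_rpow_of_nonpos (by positivity) (hElow _) (by linarith)
  have hlin : ∀ k : ℕ, k0 ≤ k → E k ^ (-γ) ≤ Y + γ * B * k := by
    intro k hk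
    induction k, hk using Nat.le_induction with
    | base =>
      have : 0 ≤ γ * B * k0 := by positivity
      linarith
    | succ k hk ih =>
      have h1 := Pool.Agent.Helper39_Wave.rpow_neg_sub_le hγ0.le (hE (k + 1)) (hanti k)
      rw [hγβ] at h1
      have h2 : E (k + 1) ^ (-β) * (E k - E (k + 1)) = r k := by
        simp only [hr]; ring
      rw [h2] at h1
      have h3 := mul_le_mul_of_nonneg_left (hrB' k hk) hγ0.le
      push_cast
      linarith
  have hall : ∀ k : ℕ, E k ^ (-γ) ≤ C1 * ((k : ℝ) + 1) := by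
    intro k
    have hk0r : (0 : ℝ) ≤ k := by positivity
    have hgb : 0 ≤ γ * B := by positivity
    rw [hC1]
    rcases le_total k0 k with hk | hk
    · have := hlin k hk
      nlinarith
    · have h1 : E k ^ (-γ) ≤ E k0 ^ (-γ) :=
        Real.rpow_le_rpow_of_nonpos (hE _) (hmono k k0 hk) (by linarith)
      nlinarith
  intro k
  have hk1 : (0 : ℝ) < (k : ℝ) + 1 := by positivity
  rw [← Real.mul_rpow hC1pos.le hk1.le]
  have h1 : (C1 * ((k : ℝ) + 1)) ^ (-(2 / α)) ≤ (E k ^ (-γ)) ^ (-(2 / α)) :=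
    Real.rpow_le_rpow_of_nonpos (Real.rpow_pos_of_pos (hE k) _) (hall k) (by
      have : 0 < 2 / α := by positivity
      linarith)
  rw [← Real.rpow_mul (hE k).le] at h1
  have h2 : -γ * -(2 / α) = 1 := by rw [hγ]; field_simp
  rwa [h2, Real.rpow_one] at h1

theorem sql : SqlStmt := by
  intro α C s e0 θ hα hC hs he hθ hθ1
  exact sql_aux hα hC hs he hθ hθ1

end Pool.Agent.R3B.H19
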